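import Pool.Agent.Lib.MP_961538_co.Final

namespace Pool.Agent.Results.MP_961538_co.LinkBelowDeletion

open Pool.Agent.Lib.MP_961538_co

theorem result (f : Polynomial ℕ) (h0 : f.coeff 0 = 1)
    (hreal : ∀ z : ℂ, Polynomial.aeval z f = 0 → z.im = 0)
    (i : ℕ) (hi : 1 ≤ i) (hid : i ≤ f.natDegree - 1)
    (j : ℕ) (a : ℕ → ℕ) (ha : IsExpansion (f.coeff i) i j a)
    (l : ℕ) (b : ℕ → ℕ) (hb : IsExpansion (f.coeff (i + 1)) (i + 1) l b) :
    ∑ k ∈ Finset.Icc l (i + 1), (b k - 1).choose (k - 1)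
      ≤ ∑ k ∈ Finset.Icc j i, (a k - 1).choose k := by
  have _ := hi
  have _ := hid
  rw [← GG_expansion ha, ← HH_expansion hb, ← GG_sh]
  exact GG_mono i (KK_of_real f h0 hreal i)

end Pool.Agent.Results.MP_961538_co.LinkBelowDeletion
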